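import Mathlib

/-!
# Automorphisms of the Lie algebra `W_∞`

`W_∞` is the Lie algebra of the derivations of `F[x₀, x₁, ...]` which vanish at all but finitely
many variables.  Every automorphism is induced by an automorphism of the polynomial ring.
-/

set_option autoImplicit false

open MvPolynomial

namespace Pool.Agent.X153.WI

variable {F : Type} [Field F]

/-- The polynomial ring. -/
abbrev P (F : Type) [Field F] : Type := MvPolynomial ℕ F

/-- Its derivations. -/
abbrev Dr (F : Type) [Field F] : Type := Derivation F (MvPolynomial ℕ F) (MvPolynomial ℕ F)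

/-- Only finitely many variables are moved. -/
def Fn (d : Dr F) : Prop := Set.Finite {i : ℕ | d (X i) ≠ 0}

/-- The partial derivative. -/
noncomputable abbrev pd (n : ℕ) : Dr F := pderiv n

theorem fn_zero : Fn (0 : Dr F) := by
  unfold Fn
  simp

theorem fn_pd (n : ℕ) : Fn (pd n : Dr F) := by
  refine (Set.finite_singleton n).subset ?_
  intro i hi
  by_contra hne
  exact hi (pderiv_X_of_ne (by simpa using hne))

theorem fn_smul (p : P F) {d : Dr F} (hd : Fn d) : Fn (p • d) := by
  refine hd.subset ?_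
  intro i hi
  simp only [Set.mem_ofPred_eq] at hi ⊢
  intro h
  apply hi
  rw [Derivation.smul_apply, h, smul_zero]

theorem fn_csmul (c : F) {d : Dr F} (hd : Fn d) : Fn (c • d) := by
  refine hd.subset ?_
  intro i hi
  simp only [Set.mem_ofPred_eq] at hi ⊢
  intro h
  apply hi
  rw [Derivation.smul_apply, h, smul_zero]

theorem fn_neg {d : Dr F} (hd : Fn d) : Fn (-d) := by
  refine hd.subset ?_
  intro i hi
  simp only [Set.mem_ofPred_eq] at hi ⊢
  intro h
  apply hi
  rw [Derivation.neg_apply, h, neg_zero]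

theorem fn_add {d e : Dr F} (hd : Fn d) (he : Fn e) : Fn (d + e) := by
  refine (hd.union he).subset ?_
  intro i hi
  simp only [Set.mem_ofPred_eq, Set.mem_union] at hi ⊢
  by_contra h
  push Not at h
  apply hi
  rw [Derivation.add_apply, h.1, h.2, add_zero]

theorem fn_lie {d e : Dr F} (hd : Fn d) (he : Fn e) : Fn ⁅d, e⁆ := by
  refine (hd.union he).subset ?_
  intro i hi
  simp only [Set.mem_ofPred_eq, Set.mem_union] at hi ⊢
  by_contra h
  push Not at h
  apply hi
  rw [Derivation.commutator_apply, h.1, h.2, map_zero, map_zero, sub_zero]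

/-- The bracket of multiples. -/
theorem lie_smul_smul (a b : P F) (d e : Dr F) :
    ⁅a • d, b • e⁆ = (a * d b) • e - (b * e a) • d + (a * b) • ⁅d, e⁆ := by
  ext1
  rename_i i
  simp only [Derivation.commutator_apply, Derivation.smul_apply, Derivation.add_apply,
    Derivation.sub_apply, smul_eq_mul, Derivation.leibniz]
  ring

theorem lie_smul_right (b : P F) (d e : Dr F) :
    ⁅d, b • e⁆ = (d b) • e + b • ⁅d, e⁆ := by
  ext1
  rename_i i
  simp only [Derivation.commutator_apply, Derivation.smul_apply, Derivation.add_apply,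
    smul_eq_mul, Derivation.leibniz]
  ring

theorem pd_pd (n m : ℕ) : ⁅(pd n : Dr F), (pd m : Dr F)⁆ = 0 := by
  apply derivation_ext
  intro i
  rw [Derivation.commutator_apply, Derivation.zero_apply]
  rcases eq_or_ne i n with rfl | h1
  · rw [show (pd i : Dr F) (X i) = 1 from pderiv_X_self i, Derivation.map_one_eq_zero]
    rcases eq_or_ne i m with rfl | h2
    · rw [show (pd i : Dr F) (X i) = 1 from pderiv_X_self i, Derivation.map_one_eq_zero, sub_zero]
    · rw [show (pd m : Dr F) (X i) = 0 from pderiv_X_of_ne h2, map_zero, sub_zero]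
  · rw [show (pd n : Dr F) (X i) = 0 from pderiv_X_of_ne h1, map_zero]
    rcases eq_or_ne i m with rfl | h2
    · rw [show (pd i : Dr F) (X i) = 1 from pderiv_X_self i, Derivation.map_one_eq_zero, sub_zero]
    · rw [show (pd m : Dr F) (X i) = 0 from pderiv_X_of_ne h2, map_zero, sub_zero]

/-- All but finitely many partial derivatives kill a polynomial. -/
theorem ev_poly (p : P F) : ∀ᶠ n in Filter.cofinite, (pd n : Dr F) p = 0 := by
  rw [Filter.eventually_cofinite]
  refine p.vars.finite_toSet.subset ?_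
  intro n hn
  by_contra h
  exact hn (pderiv_eq_zero_of_notMem_vars (by simpa using h))

/-- All but finitely many partial derivatives commute with an element of `W_∞`, which kills all
but finitely many variables. -/
theorem ev_der {d : Dr F} (hd : Fn d) :
    ∀ᶠ n in Filter.cofinite, d (X n) = 0 ∧ ⁅(pd n : Dr F), d⁆ = 0 := by
  have h1 : ∀ᶠ n in Filter.cofinite, d (X n) = 0 := by
    rw [Filter.eventually_cofinite]
    exact hd
  have h2 : ∀ᶠ n in Filter.cofinite, ∀ i ∈ {i : ℕ | d (X i) ≠ 0}, (pd n : Dr F) (d (X i)) = 0 := by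
    have := (Filter.eventually_all_finite (l := Filter.cofinite) hd
      (p := fun i n => (pd n : Dr F) (d (X i)) = 0)).2 (fun i _ => ev_poly (d (X i)))
    exact this
  filter_upwards [h1, h2] with n hn1 hn2
  refine ⟨hn1, ?_⟩
  apply derivation_ext
  intro i
  rw [Derivation.commutator_apply, Derivation.zero_apply]
  have h3 : d ((pd n : Dr F) (X i)) = 0 := by
    rcases eq_or_ne i n with rfl | h
    · rw [show (pd i : Dr F) (X i) = 1 from pderiv_X_self i, Derivation.map_one_eq_zero]
    · rw [show (pd n : Dr F) (X i) = 0 from pderiv_X_of_ne h, map_zero]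
  rw [h3, sub_zero]
  by_cases h4 : d (X i) = 0
  · rw [h4, map_zero]
  · exact hn2 i h4

/-- The data of an automorphism `θ` of `W_∞` with inverse `η`. -/
structure IsAut (θ η : Dr F → Dr F) : Prop where
  fin : ∀ d, Fn d → Fn (θ d)
  fin' : ∀ d, Fn d → Fn (η d)
  left : ∀ d, Fn d → η (θ d) = d
  right : ∀ d, Fn d → θ (η d) = d
  add : ∀ d e, Fn d → Fn e → θ (d + e) = θ d + θ e
  lie : ∀ d e, Fn d → Fn e → θ ⁅d, e⁆ = ⁅θ d, θ e⁆
  csm : ∀ (c : F) d, Fn d → θ (c • d) = c • θ d

variable {θ η : Dr F → Dr F}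

theorem IsAut.inj (h : IsAut θ η) {d e : Dr F} (hd : Fn d) (he : Fn e) (hde : θ d = θ e) :
    d = e := by
  rw [← h.left d hd, ← h.left e he, hde]

theorem IsAut.symm (h : IsAut θ η) : IsAut η θ where
  fin := h.fin'
  fin' := h.fin
  left := h.right
  right := h.left
  add := by
    intro d e hd he
    apply h.inj (h.fin' _ (fn_add hd he)) (fn_add (h.fin' _ hd) (h.fin' _ he))
    rw [h.right _ (fn_add hd he), h.add _ _ (h.fin' _ hd) (h.fin' _ he), h.right _ hd, h.right _ he]
  lie := by
    intro d e hd he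
    apply h.inj (h.fin' _ (fn_lie hd he)) (fn_lie (h.fin' _ hd) (h.fin' _ he))
    rw [h.right _ (fn_lie hd he), h.lie _ _ (h.fin' _ hd) (h.fin' _ he), h.right _ hd, h.right _ he]
  csm := by
    intro c d hd
    apply h.inj (h.fin' _ (fn_csmul c hd)) (fn_csmul c (h.fin' _ hd))
    rw [h.right _ (fn_csmul c hd), h.csm _ _ (h.fin' _ hd), h.right _ hd]

theorem IsAut.zero (h : IsAut θ η) : θ 0 = 0 := by
  have := h.add 0 0 fn_zero fn_zero
  rw [add_zero] at this
  exact left_eq_add.1 this

/-- `θ ∂ₙ ≠ 0` -/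
theorem IsAut.ne (h : IsAut θ η) (n : ℕ) : θ (pd n) ≠ 0 := by
  intro h0
  have h1 := h.inj (fn_pd n) fn_zero (by rw [h0, h.zero])
  have h2 : (pd n : Dr F) (X n) = 0 := by rw [h1]; rfl
  rw [show (pd n : Dr F) (X n) = 1 from pderiv_X_self n] at h2
  exact one_ne_zero h2

theorem smul_cancel {d : Dr F} (hd : d ≠ 0) {p q : P F} (h : p • d = q • d) : p = q := by
  have h1 : ∃ i, d (X i) ≠ 0 := by
    by_contra hc
    push Not at hc
    exact hd (derivation_ext (fun i => by rw [hc i]; rfl))
  obtain ⟨i, hi⟩ := h1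
  have h2 : (p • d) (X i) = (q • d) (X i) := by rw [h]
  rw [Derivation.smul_apply, Derivation.smul_apply, smul_eq_mul, smul_eq_mul] at h2
  exact mul_right_cancel₀ hi h2

/-- The images of the partial derivatives commute. -/
theorem IsAut.comm (h : IsAut θ η) (n m : ℕ) : ⁅θ (pd n), θ (pd m)⁆ = 0 := by
  rw [← h.lie _ _ (fn_pd n) (fn_pd m), pd_pd, h.zero]

end Pool.Agent.X153.WI
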