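import Pool.Agent.X153.WI.Base

/-!
# Automorphisms of the Lie algebra `W_∞`: the proof
-/

set_option autoImplicit false

open MvPolynomial

namespace Pool.Agent.X153.WI

variable {F : Type} [Field F] {θ η : Dr F → Dr F}

theorem pd_X_self (n : ℕ) : (pd n : Dr F) (X n) = 1 := pderiv_X_self n

theorem comm_apply {d e : Dr F} (h : ⁅d, e⁆ = 0) (p : P F) : d (e p) = e (d p) := by
  have h1 : ⁅d, e⁆ p = 0 := by rw [h]; rfl
  rw [Derivation.commutator_apply] at h1
  exact sub_eq_zero.1 h1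

theorem comm_symm {d e : Dr F} (h : ⁅d, e⁆ = 0) : ⁅e, d⁆ = 0 := by
  rw [← lie_skew, h, neg_zero]

theorem neg_lie' (d e : Dr F) : ⁅-d, e⁆ = -⁅d, e⁆ := by
  ext1
  rename_i i
  simp only [Derivation.commutator_apply, Derivation.neg_apply, map_neg]
  ring

/-- Multiples of the image of a partial derivative by its constants come from multiples of the
partial derivative. -/
theorem step1 [CharZero F] (h : IsAut θ η) (n : ℕ) (b : P F) (hb : (θ (pd n)) b = 0) :
    ∃ p : P F, (pd n : Dr F) p = 0 ∧ η (b • θ (pd n)) = p • pd n := by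
  set D := θ (pd n) with hD
  have fD : Fn D := h.fin _ (fn_pd n)
  have fbD : Fn (b • D) := fn_smul b fD
  set a := η (b • D) with ha
  have fa : Fn a := h.fin' _ fbD
  have hθa : θ a = b • D := h.right _ fbD
  have e1 : ⁅(pd n : Dr F), a⁆ = 0 := by
    apply h.inj (fn_lie (fn_pd n) fa) fn_zero
    rw [h.lie _ _ (fn_pd n) fa, h.zero, hθa, ← hD, lie_smul_right, hb, zero_smul, lie_self,
      smul_zero, add_zero]
  have e2 : ∀ q : P F, (pd n : Dr F) q = 0 → a (a q) = 0 := by
    intro q hq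
    have fz : Fn (q • pd n : Dr F) := fn_smul q (fn_pd n)
    set ζ := θ (q • pd n) with hζ
    have k1 : ⁅(q • pd n : Dr F), (pd n : Dr F)⁆ = 0 := by
      apply comm_symm
      rw [lie_smul_right, hq, zero_smul, lie_self, smul_zero, add_zero]
    have k2 : ⁅ζ, D⁆ = 0 := by
      rw [hζ, hD, ← h.lie _ _ fz (fn_pd n), k1, h.zero]
    have k3 : ⁅ζ, b • D⁆ = (ζ b) • D := by
      rw [lie_smul_right, k2, smul_zero, add_zero]
    have k4 : D (ζ b) = 0 := by
      rw [← comm_apply k2, hb, map_zero]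
    have k5 : ⁅(ζ b) • D, b • D⁆ = 0 := by
      rw [lie_smul_smul, hb, k4, lie_self, mul_zero, mul_zero, zero_smul, smul_zero, sub_zero,
        add_zero]
    have k6 : ⁅⁅(q • pd n : Dr F), a⁆, a⁆ = 0 := by
      apply h.inj (fn_lie (fn_lie fz fa) fa) fn_zero
      rw [h.lie _ _ (fn_lie fz fa) fa, h.lie _ _ fz fa, hθa, ← hζ, k3, k5, h.zero]
    have k7 : ⁅(q • pd n : Dr F), a⁆ = -((a q) • pd n : Dr F) := by
      rw [← lie_skew, lie_smul_right, comm_symm e1, smul_zero, add_zero]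
    have k8 : ⁅⁅(q • pd n : Dr F), a⁆, a⁆ = (a (a q)) • (pd n : Dr F) := by
      have k80 : ⁅a, (a q) • (pd n : Dr F)⁆ = (a (a q)) • (pd n : Dr F) := by
        rw [lie_smul_right, comm_symm e1, smul_zero, add_zero]
      have k81 : ⁅(a q) • (pd n : Dr F), a⁆ = -((a (a q)) • (pd n : Dr F)) := by
        rw [← k80, lie_skew]
      rw [k7, neg_lie', k81, neg_neg]
    rw [k8] at k6
    have k9 : ((a (a q)) • (pd n : Dr F)) (X n) = 0 := by rw [k6]; rfl
    rw [Derivation.smul_apply, pd_X_self, smul_eq_mul, mul_one] at k9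
    exact k9
  have e3 : ∀ q : P F, (pd n : Dr F) q = 0 → a q = 0 := by
    intro q hq
    have k1 := e2 (q * q) (by rw [Derivation.leibniz, hq, smul_zero, add_zero])
    have k2 := e2 q hq
    simp only [Derivation.leibniz, smul_eq_mul, map_add, k2, mul_zero, add_zero, zero_add] at k1
    have k3 : (2 : P F) * (a q * a q) = 0 := by linear_combination k1
    rcases mul_eq_zero.1 k3 with k4 | k4
    · exfalso
      have : (2 : P F) ≠ 0 := by
        have h2 : (C (2 : F) : P F) ≠ 0 := by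
          rw [Ne, C_eq_zero]
          exact two_ne_zero
        intro h3
        apply h2
        rw [map_ofNat]
        exact h3
      exact this k4
    · exact mul_self_eq_zero.1 k4
  refine ⟨a (X n), ?_, ?_⟩
  · rw [comm_apply e1, pd_X_self, Derivation.map_one_eq_zero]
  · apply derivation_ext
    intro i
    rw [Derivation.smul_apply, smul_eq_mul]
    rcases eq_or_ne i n with rfl | hi
    · rw [pd_X_self, mul_one]
    · have k : (pd n : Dr F) (X i) = 0 := pderiv_X_of_ne hi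
      rw [k, mul_zero, e3 _ k]

/-- Multiples of a partial derivative by its constants are mapped to multiples of the image of the
partial derivative. -/
theorem step2 [CharZero F] (h : IsAut θ η) (n : ℕ) (p : P F) (hp : (pd n : Dr F) p = 0) :
    ∃ q : P F, (θ (pd n)) q = 0 ∧ θ (p • pd n) = q • θ (pd n) := by
  set D := θ (pd n) with hD
  have fD : Fn D := h.fin _ (fn_pd n)
  have fpd : Fn (p • pd n : Dr F) := fn_smul p (fn_pd n)
  set δ := θ (p • pd n) with hδ
  have fδ : Fn δ := h.fin _ fpd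
  obtain ⟨m, ⟨m1, m2⟩, m3, m4⟩ := ((ev_der fD).and (ev_der fδ)).exists
  set w := η (pd m) with hw
  have fw : Fn w := h.fin' _ (fn_pd m)
  have hθw : θ w = pd m := h.right _ (fn_pd m)
  have e1 : ⁅w, (pd n : Dr F)⁆ = 0 := by
    apply h.inj (fn_lie fw (fn_pd n)) fn_zero
    rw [h.lie _ _ fw (fn_pd n), hθw, ← hD, m2, h.zero]
  have e2 : w p = 0 := by
    have k1 : ⁅w, (p • pd n : Dr F)⁆ = 0 := by
      apply h.inj (fn_lie fw fpd) fn_zero
      rw [h.lie _ _ fw fpd, hθw, ← hδ, m4, h.zero]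
    rw [lie_smul_right, e1, smul_zero, add_zero] at k1
    have k2 : ((w p) • (pd n : Dr F)) (X n) = 0 := by rw [k1]; rfl
    rw [Derivation.smul_apply, pd_X_self, smul_eq_mul, mul_one] at k2
    exact k2
  obtain ⟨q, q1, q2⟩ := step1 h.symm m p e2
  obtain ⟨s, s1, s2⟩ := step1 h n (X m) m1
  rw [← hw] at q2
  rw [← hD] at s2
  have fpw : Fn (p • w) := fn_smul p fw
  have fsn : Fn (s • pd n : Dr F) := fn_smul s (fn_pd n)
  have fXD : Fn ((X m : P F) • D) := fn_smul _ fD
  have hθs : θ (s • (pd n : Dr F)) = (X m : P F) • D := by rw [← s2, h.right _ fXD]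
  have e3 : w s = 1 := by
    have k1 : ⁅w, (s • pd n : Dr F)⁆ = (pd n : Dr F) := by
      apply h.inj (fn_lie fw fsn) (fn_pd n)
      rw [h.lie w (s • pd n : Dr F) fw fsn, hθw, hθs, lie_smul_right, pd_X_self, m2, smul_zero,
        add_zero, one_smul]
    rw [lie_smul_right, e1, smul_zero, add_zero] at k1
    have k2 : ((w s) • (pd n : Dr F)) (X n) = (pd n : Dr F) (X n) := by rw [k1]
    rw [Derivation.smul_apply, pd_X_self, smul_eq_mul, mul_one] at k2
    exact k2
  have e4 : D q = 0 := by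
    have k1 : ⁅(pd n : Dr F), p • w⁆ = 0 := by
      rw [lie_smul_right, hp, zero_smul, comm_symm e1, smul_zero, add_zero]
    have k2 : ⁅D, (q • pd m : Dr F)⁆ = 0 := by
      rw [hD, ← q2, ← h.lie _ _ (fn_pd n) fpw, k1, h.zero]
    rw [lie_smul_right, comm_symm m2, smul_zero, add_zero] at k2
    have k3 : ((D q) • (pd m : Dr F)) (X m) = 0 := by rw [k2]; rfl
    rw [Derivation.smul_apply, pd_X_self, smul_eq_mul, mul_one] at k3
    exact k3
  refine ⟨q, e4, ?_⟩
  have e5 : ⁅p • w, (s • pd n : Dr F)⁆ = p • (pd n : Dr F) := by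
    rw [lie_smul_smul, e3, hp, mul_one, mul_zero, zero_smul, sub_zero, e1, smul_zero, add_zero]
  have e6 : θ ⁅p • w, (s • pd n : Dr F)⁆ = q • D := by
    rw [h.lie _ _ fpw fsn, q2, hθs, lie_smul_smul, pd_X_self, mul_one, e4, mul_zero, zero_smul,
      sub_zero, m2, smul_zero, add_zero]
  rw [hδ, ← e5, e6]

/-- The map of the polynomial ring. -/
theorem exists_map [CharZero F] (h : IsAut θ η) :
    ∃ φ : P F → P F, ∀ (p : P F) (n : ℕ), (pd n : Dr F) p = 0 →
      θ (p • pd n) = φ p • θ (pd n) ∧ (θ (pd n)) (φ p) = 0 := by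
  have key : ∀ p : P F, ∃ q : P F, ∀ n : ℕ, (pd n : Dr F) p = 0 →
      θ (p • pd n) = q • θ (pd n) ∧ (θ (pd n)) q = 0 := by
    intro p
    obtain ⟨m, hm⟩ := (ev_poly p).exists
    obtain ⟨q, q1, q2⟩ := step2 h m p hm
    refine ⟨q, ?_⟩
    intro n hn
    rcases eq_or_ne n m with rfl | hnm
    · exact ⟨q2, q1⟩
    obtain ⟨r, r1, r2⟩ := step2 h n p hn
    -- `[p ∂ₙ, xₙ ∂ₘ] = p ∂ₘ`
    have hxm : (pd m : Dr F) (X n) = 0 := pderiv_X_of_ne hnm
    obtain ⟨s, s1, s2⟩ := step2 h m (X n) hxm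
    have fn1 : Fn (p • pd n : Dr F) := fn_smul _ (fn_pd n)
    have fm1 : Fn (p • pd m : Dr F) := fn_smul _ (fn_pd m)
    have fx : Fn ((X n : P F) • pd m : Dr F) := fn_smul _ (fn_pd m)
    have k1 : ⁅(p • pd n : Dr F), ((X n : P F) • pd m : Dr F)⁆ = p • (pd m : Dr F) := by
      rw [lie_smul_smul, pd_X_self, mul_one, hm, mul_zero, zero_smul, sub_zero, pd_pd, smul_zero,
        add_zero]
    have k2 : ⁅(pd n : Dr F), ((X n : P F) • pd m : Dr F)⁆ = pd m := by
      rw [lie_smul_right, pd_X_self, one_smul, pd_pd, smul_zero, add_zero]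
    have k3 : (θ (pd n)) s = 1 := by
      have k := h.lie _ _ (fn_pd n) fx
      rw [k2, s2, lie_smul_right, h.comm, smul_zero, add_zero] at k
      apply smul_cancel (h.ne m)
      rw [← k, one_smul]
    have k4 : (θ (pd m)) r = 0 := by
      have k5 : ⁅(pd m : Dr F), (p • pd n : Dr F)⁆ = 0 := by
        rw [lie_smul_right, hm, zero_smul, pd_pd, smul_zero, add_zero]
      have k := h.lie _ _ (fn_pd m) fn1
      rw [k5, r2, lie_smul_right, h.comm, smul_zero, add_zero, h.zero] at k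
      apply smul_cancel (h.ne n)
      rw [← k, zero_smul]
    have k5 := h.lie _ _ fn1 fx
    rw [k1, q2, r2, s2, lie_smul_smul, k3, k4, mul_one, mul_zero, zero_smul, sub_zero, h.comm,
      smul_zero, add_zero] at k5
    have k6 : q = r := smul_cancel (h.ne m) k5
    rw [k6]
    exact ⟨r2, r1⟩
  choose φ hφ using key
  exact ⟨φ, hφ⟩

/-- The compatibility of the map with all derivations. -/
theorem compat (h : IsAut θ η) (φ : P F → P F)
    (hφ : ∀ (p : P F) (n : ℕ), (pd n : Dr F) p = 0 →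
      θ (p • pd n) = φ p • θ (pd n) ∧ (θ (pd n)) (φ p) = 0)
    (d : Dr F) (hd : Fn d) (q : P F) : (θ d) (φ q) = φ (d q) := by
  obtain ⟨n, n1, n2, n3⟩ := ((ev_poly q).and (ev_der hd)).exists
  have fq : Fn (q • pd n : Dr F) := fn_smul _ (fn_pd n)
  have k1 : (pd n : Dr F) (d q) = 0 := by
    rw [comm_apply n3, n1, map_zero]
  have k2 : ⁅d, (q • pd n : Dr F)⁆ = (d q) • (pd n : Dr F) := by
    rw [lie_smul_right, comm_symm n3, smul_zero, add_zero]
  have k3 : ⁅θ d, θ (pd n)⁆ = 0 := by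
    rw [← h.lie _ _ hd (fn_pd n), comm_symm n3, h.zero]
  have k4 := h.lie _ _ hd fq
  rw [k2, (hφ _ n k1).1, (hφ _ n n1).1, lie_smul_right, k3, smul_zero, add_zero] at k4
  exact (smul_cancel (h.ne n) k4).symm

/-- The map is an algebra homomorphism. -/
theorem exists_hom [CharZero F] (h : IsAut θ η) :
    ∃ φ : P F →ₐ[F] P F, ∀ (d : Dr F), Fn d → ∀ q : P F, (θ d) (φ q) = φ (d q) := by
  obtain ⟨φ, hφ⟩ := exists_map h
  have hc := compat h φ hφ
  have hadd : ∀ p q, φ (p + q) = φ p + φ q := by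
    intro p q
    obtain ⟨n, n1, n2⟩ := ((ev_poly p).and (ev_poly q)).exists
    apply smul_cancel (h.ne n)
    have n3 : (pd n : Dr F) (p + q) = 0 := by rw [map_add, n1, n2, add_zero]
    rw [← (hφ _ n n3).1, add_smul, h.add _ _ (fn_smul _ (fn_pd n)) (fn_smul _ (fn_pd n)),
      (hφ _ n n1).1, (hφ _ n n2).1, add_smul]
  have hone : φ 1 = 1 := by
    apply smul_cancel (h.ne 0)
    rw [← (hφ 1 0 (Derivation.map_one_eq_zero _)).1, one_smul, one_smul]
  have hmul : ∀ p q, φ (p * q) = φ p * φ q := by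
    intro p q
    obtain ⟨m, m1, m2⟩ := ((ev_poly p).and (ev_poly q)).exists
    have k1 := hc (p • pd m) (fn_smul _ (fn_pd m)) (X m * q)
    have k2 := hc (pd m) (fn_pd m) (X m * q)
    have k3 : (pd m : Dr F) (X m * q) = q := by
      rw [Derivation.leibniz, m2, pd_X_self, smul_zero, zero_add, smul_eq_mul, mul_one]
    rw [k3] at k2
    rw [(hφ _ m m1).1, Derivation.smul_apply, Derivation.smul_apply, k2, k3, smul_eq_mul,
      smul_eq_mul] at k1
    exact k1.symm
  have hsm : ∀ (c : F) (p : P F), φ (c • p) = c • φ p := by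
    intro c p
    obtain ⟨n, n1⟩ := (ev_poly p).exists
    apply smul_cancel (h.ne n)
    have n3 : (pd n : Dr F) (c • p) = 0 := by rw [Derivation.map_smul, n1, smul_zero]
    rw [← (hφ _ n n3).1, smul_assoc, h.csm _ _ (fn_smul _ (fn_pd n)), (hφ _ n n1).1, smul_assoc]
  have hzero : φ 0 = 0 := by
    have := hsm 0 0
    simpa using this
  refine ⟨{ toFun := φ, map_one' := hone, map_mul' := hmul, map_zero' := hzero,
            map_add' := hadd, commutes' := ?_ }, ?_⟩
  · intro r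
    rw [Algebra.algebraMap_eq_smul_one, hsm, hone]
  · intro d hd q
    exact hc d hd q

/-- An endomorphism commuting with `W_∞` is the identity. -/
theorem eq_id (Γ : P F →ₐ[F] P F) (h : ∀ d : Dr F, Fn d → ∀ q : P F, d (Γ q) = Γ (d q)) :
    Γ = AlgHom.id F (P F) := by
  apply algHom_ext
  intro i
  have k1 := h ((X i : P F) • pd i) (fn_smul _ (fn_pd i)) (X i)
  have k2 := h (pd i) (fn_pd i) (X i)
  rw [pd_X_self, map_one] at k2
  simp only [Derivation.smul_apply, k2, pd_X_self, smul_eq_mul, mul_one] at k1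
  rw [AlgHom.id_apply]
  exact k1.symm

theorem mem_vars_ne [CharZero F] (p : P F) (n : ℕ) (hn : n ∈ p.vars) :
    (pd n : Dr F) p ≠ 0 := by
  rw [mem_vars_iff_mem_support] at hn
  obtain ⟨s, hs, hns⟩ := hn
  intro h0
  have h1 := coeff_pderiv (i := n) p (s - Finsupp.single n 1)
  rw [show pderiv n p = 0 from h0, coeff_zero] at h1
  have h2 : s - Finsupp.single n 1 + Finsupp.single n 1 = s := by
    apply tsub_add_cancel_of_le
    rw [Finsupp.single_le_iff]
    have := Finsupp.mem_support_iff.1 hns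
    omega
  rw [h2] at h1
  have h3 : (((s - Finsupp.single n 1 : ℕ →₀ ℕ) n : ℕ) : F) + 1 ≠ 0 := by
    exact_mod_cast Nat.succ_ne_zero ((s - Finsupp.single n 1 : ℕ →₀ ℕ) n)
  rcases mul_eq_zero.1 h1.symm with h4 | h4
  · exact (mem_support_iff.1 hs) h4
  · exact h3 h4

theorem fin_vars [CharZero F] (h : IsAut θ η) (φ : P F →ₐ[F] P F)
    (hφ : ∀ (d : Dr F), Fn d → ∀ q : P F, (θ d) (φ q) = φ (d q)) (n : ℕ) :
    Set.Finite {i : ℕ | n ∈ (φ (X i)).vars} := by
  have fw : Fn (η (pd n)) := h.fin' _ (fn_pd n)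
  refine fw.subset ?_
  intro i hi
  have h1 := mem_vars_ne _ _ hi
  have h2 := hφ (η (pd n)) fw (X i)
  rw [h.right _ (fn_pd n)] at h2
  intro h3
  apply h1
  rw [h2, h3, map_zero]

/-- **Automorphisms of `W_∞`.** -/
theorem main [CharZero F] (h : IsAut θ η) :
    ∃ φ : P F ≃ₐ[F] P F,
      (∀ n : ℕ, Set.Finite {i : ℕ | n ∈ (φ (X i)).vars} ∧
        Set.Finite {i : ℕ | n ∈ (φ.symm (X i)).vars}) ∧
      ∀ d : Dr F, Fn d → ∀ f : P F, θ d f = φ (d (φ.symm f)) := by
  obtain ⟨φ, hφ⟩ := exists_hom h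
  obtain ⟨ψ, hψ⟩ := exists_hom h.symm
  have h1 : φ.comp ψ = AlgHom.id F (P F) := by
    apply eq_id
    intro d hd q
    rw [AlgHom.comp_apply, AlgHom.comp_apply]
    have k1 := hφ (η d) (h.fin' _ hd) (ψ q)
    rw [h.right _ hd, hψ d hd q] at k1
    exact k1
  have h2 : ψ.comp φ = AlgHom.id F (P F) := by
    apply eq_id
    intro d hd q
    rw [AlgHom.comp_apply, AlgHom.comp_apply]
    have k1 := hψ (θ d) (h.fin _ hd) (φ q)
    rw [h.left _ hd, hφ d hd q] at k1
    exact k1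
  refine ⟨AlgEquiv.ofAlgHom φ ψ h1 h2, ?_, ?_⟩
  · intro n
    exact ⟨fin_vars h φ hφ n, fin_vars h.symm ψ hψ n⟩
  · intro d hd f
    have k1 : φ (ψ f) = f := by
      have := congrArg (fun g => g f) h1
      simpa using this
    have k2 := hφ d hd (ψ f)
    rw [k1] at k2
    exact k2

end Pool.Agent.X153.WI
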